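import Pool.Agent.Lib.MP_f1e800_an.CC

set_option autoImplicit false

namespace Pool.Agent.Results.MP_f1e800_an.UmbelHeisenberg

open Pool.Agent.Lib.MP_f1e800_an

/-- Q1 holds: if `1 < p < ∞`, `X` is a real normed space (in particular a Banach space) with
property `(β_p)` and `ω` is a nonzero antisymmetric bounded bilinear form on `X`, then the
Heisenberg group `X × ℝ` over `(X, ω)` carries a quasi-metric equivalent to the
Carnot-Caratheodory distance that satisfies the `p`-umbel inequality. -/
theorem result (X : Type*) [NormedAddCommGroup X] [NormedSpace ℝ X] (p : ℝ) (hp : 1 < p)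
    (hβ : HasBeta X p) (ω : X →L[ℝ] X →L[ℝ] ℝ) (hanti : ∀ x y, ω x y = - ω y x) (hne : ω ≠ 0) :
    ∃ d : X × ℝ → X × ℝ → NNReal, IsEquivQuasiMetric ω d ∧ SatisfiesUmbel p d :=
  main hp hβ ω hanti hne

end Pool.Agent.Results.MP_f1e800_an.UmbelHeisenberg
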